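import Mathlib
import Pool.Agent.Q8.QH.Par
import Pool.Agent.W307.RT.Tors

/-!
# The rank and the 2-isogeny Selmer rank for two families of elliptic curves ordered by height

All elliptic curves over `ℚ` with full rational 2-torsion, and all elliptic curves over `ℚ` with a
rational cyclic subgroup of order four, ordered by height. For their equations
`y² = x³ + a x² + b x` obtained by moving a rational point of order two to `(0, 0)` (in the second
family: the double of a generator of the cyclic subgroup) we prove: for almost all the curves the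
rank `r` is bounded in the sense below, while the 2-isogeny Selmer rank `s = f₁ + f₂ - 2` is
`(3 / 2 + o (1)) log log H`. In particular `s - r` is larger than any given constant for 100 % of the
curves of both families.
-/

set_option autoImplicit false

namespace Pool.Agent.Results.MP_e2b281_nt.AllCurvesByHeight

open Finset Filter

/-- the quartic `N² = b₁ M⁴ + a M² e² + (b / b₁) e⁴` has a solution in `K` with `(M, e) ≠ (0, 0)` -/
def Solvable (K : Type) [Field K] (a b b₁ : ℤ) : Prop := ∃ N M e : K, (M ≠ 0 ∨ e ≠ 0) ∧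
  N ^ 2 = (b₁ : K) * M ^ 4 + (a : K) * M ^ 2 * e ^ 2 + ((b / b₁ : ℤ) : K) * e ^ 4

/-- the squarefree `b₁ ∣ b` for which the quartic is everywhere locally solvable -/
def ELS (a b : ℤ) : Set ℤ := {b₁ | Squarefree b₁ ∧ b₁ ∣ b ∧ Solvable ℝ a b b₁ ∧
  ∀ (p : ℕ) [Fact p.Prime], Solvable ℚ_[p] a b b₁}

/-- the exponent `f₁` of `y² = x³ + a x² + b x` -/
noncomputable def f₁ (a b : ℤ) : ℕ := Nat.log 2 (ELS a b).ncard

/-- the exponent `f₂` of `y² = x³ + a x² + b x`: the exponent `f₁` of the 2-isogenous curve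
`y² = x³ - 2 a x² + (a² - 4 b) x` -/
noncomputable def f₂ (a b : ℤ) : ℕ := f₁ (-2 * a) (a ^ 2 - 4 * b)

/-- the Selmer rank `s = f₁ + f₂ - 2` -/
noncomputable def s (a b : ℤ) : ℤ := f₁ a b + f₂ a b - 2

/-- the curve `y² = x³ + a x² + b x` -/
def E (a b : ℤ) : WeierstrassCurve ℚ := ⟨0, (a : ℚ), 0, (b : ℚ), 0⟩

/-- the rank of `y² = x³ + a x² + b x` -/
noncomputable def r (a b : ℤ) : ℕ := Module.finrank ℤ (E a b).toAffine.Point

/-- the curve `y² = x³ + A x + B` over `ℚ` -/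
def Sh (A B : ℤ) : WeierstrassCurve ℚ := ⟨0, 0, 0, (A : ℚ), (B : ℚ)⟩

/-- `4 A³ + 27 B² ≠ 0`, the height `max (4 |A|³) (27 B²)` is at most `H`, and there is no prime `p` with
`p⁴ ∣ A` and `p⁶ ∣ B`. (Every elliptic curve over `ℚ` is isomorphic to `y² = x³ + A x + B` for exactly
one pair with the first and the last property.) -/
def Reduced (H : ℕ) (c : ℤ × ℤ) : Prop :=
  4 * c.1 ^ 3 + 27 * c.2 ^ 2 ≠ 0 ∧ 4 * |c.1| ^ 3 ≤ H ∧ 27 * c.2 ^ 2 ≤ H ∧
    ∀ p : ℕ, p.Prime → ¬ ((p : ℤ) ^ 4 ∣ c.1 ∧ (p : ℤ) ^ 6 ∣ c.2)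

open Classical in
/-- The elliptic curves `y² = x³ + c.1 x + c.2` of height at most `H` with full rational 2-torsion.
(The bounds `|c.1|, |c.2| ≤ H` follow from the bound of the height.) -/
noncomputable def Full (H : ℕ) : Finset (ℤ × ℤ) :=
  ((Icc (-(H : ℤ)) H) ×ˢ (Icc (-(H : ℤ)) H)).filter (fun c : ℤ × ℤ => Reduced H c ∧
    ∃ f : ZMod 2 × ZMod 2 →+ (Sh c.1 c.2).toAffine.Point, Function.Injective f)

open Classical in
/-- The elliptic curves `y² = x³ + c.1 x + c.2` of height at most `H` with a rational point `(t, 0)` of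
order two such that `3 t² + c.1` is a square. (The points `P` with `2 P = (t, 0)` have
`x(P) = t ± √(3 t² + c.1)`, so these are the curves with a rational cyclic subgroup of order four.) -/
noncomputable def Four (H : ℕ) : Finset (ℤ × ℤ) :=
  ((Icc (-(H : ℤ)) H) ×ˢ (Icc (-(H : ℤ)) H)).filter (fun c : ℤ × ℤ => Reduced H c ∧
    ∃ t s : ℤ, t ^ 3 + c.1 * t + c.2 = 0 ∧ 3 * t ^ 2 + c.1 = s ^ 2)

/-- `y² = x³ + a x² + b x` is obtained from `y² = x³ + c.1 x + c.2` by moving one of its points `(t, 0)`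
to `(0, 0)` -/
def Eqn (c : ℤ × ℤ) (a b : ℤ) : Prop :=
  ∃ t : ℤ, t ^ 3 + c.1 * t + c.2 = 0 ∧ a = 3 * t ∧ b = 3 * t ^ 2 + c.1

/-- `b ≠ 0`, `a² - 4 b ≠ 0`, `r ≤ R` and `|s - (3 / 2) log log H| ≤ δ log log H` -/
def Normal (R : ℕ) (δ : ℝ) (H : ℕ) (a b : ℤ) : Prop :=
  b ≠ 0 ∧ a ^ 2 - 4 * b ≠ 0 ∧ r a b ≤ R ∧
    |(s a b : ℝ) - 3 / 2 * Real.log (Real.log H)| ≤ δ * Real.log (Real.log H)

lemma Full_eq (H : ℕ) : Full H = Pool.Agent.W307.RT.Cv 2 H := by
  classical
  ext c
  unfold Full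
  rw [mem_filter]
  unfold Pool.Agent.W307.RT.Cv
  rw [mem_filter]
  unfold Reduced
  have h : Pool.Agent.W307.RT.HasT 2 (Pool.Agent.W307.RT.Sh c.1 c.2) ↔
      ∃ f : ZMod 2 × ZMod 2 →+ (Sh c.1 c.2).toAffine.Point, Function.Injective f :=
    Pool.Agent.W307.RT.tors_iff
  rw [h]
  tauto

lemma Four_eq (H : ℕ) : Four H = Pool.Agent.Q8.FI.F4 H := by
  classical
  ext c
  unfold Four
  rw [mem_filter]
  unfold Pool.Agent.Q8.FI.F4
  rw [mem_filter]
  unfold Reduced
  tauto

/-- the parameters of an equation of a curve with full rational 2-torsion -/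
lemma full_par {H : ℕ} {c : ℤ × ℤ} (hc : c ∈ Full H) {a b : ℤ} (h : Eqn c a b) :
    ∃ A B : ℤ, Pool.Agent.Q8.QH.Roots c A B ∧ a = -(A + B) ∧ b = A * B := by
  rw [Full_eq] at hc
  obtain ⟨A, B, e, he⟩ := Pool.Agent.Q8.QH.roots_ex hc
  obtain ⟨t, ht, rfl, rfl⟩ := h
  have h1 := he t
  rw [ht] at h1
  have h2 : ∃ A' B' : ℤ, ∀ x : ℤ, x ^ 3 + c.1 * x + c.2 = (x - t) * (x - (t + A')) *
      (x - (t + B')) := by
    rcases mul_eq_zero.1 h1.symm with h3 | h3
    · rcases mul_eq_zero.1 h3 with h4 | h4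
      · refine ⟨A, B, fun x => ?_⟩
        have : t = e := by linarith
        rw [he x, this]
      · refine ⟨-A, B - A, fun x => ?_⟩
        have : t = e + A := by linarith
        rw [he x, this]
        ring
    · refine ⟨-B, A - B, fun x => ?_⟩
      have : t = e + B := by linarith
      rw [he x, this]
      ring
  obtain ⟨A', B', h3⟩ := h2
  have a0 := h3 0
  have a1 := h3 1
  have a2 := h3 (-1)
  have s1 : 3 * t + A' + B' = 0 := by nlinarith
  have s3 : c.1 = t * (t + A') + t * (t + B') + (t + A') * (t + B') := by nlinarith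
  refine ⟨A', B', ⟨t, h3⟩, by linarith, ?_⟩
  rw [s3]
  have s4 : B' = -(3 * t) - A' := by linarith
  rw [s4]
  ring

/-- from the library -/
lemma normal_of {R : ℕ} {δ : ℝ} {H : ℕ} {a b : ℤ}
    (h : Pool.Agent.Q8.QH.NE R δ (Real.log (Real.log H)) a b) : Normal R δ H a b := by
  obtain ⟨h1, h2, h3, h4⟩ := h
  refine ⟨h1, h2, h3, ?_⟩
  have e : ((s a b : ℤ) : ℝ) = ((Pool.Agent.TH841.NO.fo a b : ℤ) : ℝ) +
      (Pool.Agent.TH841.NO.fo (-2 * a) (a ^ 2 - 4 * b) : ℝ) - 2 := by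
    have : s a b = (Pool.Agent.TH841.NO.fo a b : ℤ) +
      (Pool.Agent.TH841.NO.fo (-2 * a) (a ^ 2 - 4 * b) : ℤ) - 2 := rfl
    rw [this]
    push_cast
    ring
  rw [e]
  exact h4

open Classical in
/-- **Theorem.** The numbers of the curves in `Full H` and `Four H` tend to infinity with `H`.
(1) For all `δ, ε > 0` there are `R` and `H₀` such that for `H ≥ H₀` all the curves in `Full H` with at
most `ε #(Full H)` exceptions are normal (`r ≤ R`, `s = (3 / 2 + O(δ)) log log H`) for all their three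
equations `y² = x³ + a x² + b x`, and all the curves in `Four H` with at most `ε #(Four H)` exceptions
are normal for all their equations with a square `b`. (2) For every `K` the same holds with the
property `s > r + K`. -/
theorem result :
    Tendsto (fun H : ℕ => (Full H).card) atTop atTop ∧
    Tendsto (fun H : ℕ => (Four H).card) atTop atTop ∧
    (∀ δ ε : ℝ, 0 < δ → 0 < ε → ∃ R H₀ : ℕ, ∀ H : ℕ, H₀ ≤ H →
      (((Full H).filter (fun c => ¬ ∀ a b : ℤ, Eqn c a b → Normal R δ H a b)).card : ℝ) ≤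
        ε * (Full H).card ∧
      (((Four H).filter (fun c => ¬ ∀ a b : ℤ, Eqn c a b → IsSquare b →
        Normal R δ H a b)).card : ℝ) ≤ ε * (Four H).card) ∧
    ∀ (K : ℕ) (ε : ℝ), 0 < ε → ∃ H₀ : ℕ, ∀ H : ℕ, H₀ ≤ H →
      (((Full H).filter (fun c => ¬ ∀ a b : ℤ, Eqn c a b →
        (r a b : ℤ) + K < s a b)).card : ℝ) ≤ ε * (Full H).card ∧
      (((Four H).filter (fun c => ¬ ∀ a b : ℤ, Eqn c a b → IsSquare b →
        (r a b : ℤ) + K < s a b)).card : ℝ) ≤ ε * (Four H).card := by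
  have key : ∀ δ ε : ℝ, 0 < δ → 0 < ε → ∃ R H₀ : ℕ, ∀ H : ℕ, H₀ ≤ H →
      (((Full H).filter (fun c => ¬ ∀ a b : ℤ, Eqn c a b → Normal R δ H a b)).card : ℝ) ≤
        ε * (Full H).card ∧
      (((Four H).filter (fun c => ¬ ∀ a b : ℤ, Eqn c a b → IsSquare b →
        Normal R δ H a b)).card : ℝ) ≤ ε * (Four H).card := by
    intro δ ε hδ hε
    obtain ⟨δ', hδ'⟩ : ∃ δ' : ℝ, δ' = min δ 1 := ⟨_, rfl⟩
    have d0 : 0 < δ' := by rw [hδ']; exact lt_min hδ one_pos
    have d1 : δ' ≤ 1 := by rw [hδ']; exact min_le_right _ _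
    have d2 : δ' ≤ δ := by rw [hδ']; exact min_le_left _ _
    obtain ⟨R1, H1, h1⟩ := Pool.Agent.Q8.QH.fam_pp (k := 1) Pool.Agent.Q8.QH.low2 le_rfl
      (by norm_num) (Rl := Pool.Agent.Q8.QH.Roots)
      (fun H c hc A B h => by
        rw [one_mul]
        exact Pool.Agent.Q8.QH.roots_bd hc h)
      (fun c c' A B h h' => Pool.Agent.Q8.QH.roots_inj h h') (δ' / 2) (by positivity)
      (by linarith) ε hε
    obtain ⟨R2, H2, h2⟩ := Pool.Agent.Q8.QH.fam_pp (k := 7) Pool.Agent.Q8.QH.low4 (by norm_num)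
      le_rfl (Rl := Pool.Agent.Q8.QH.Rl4)
      (fun H c hc A B h => (Pool.Agent.Q8.QH.rl4_bd H c hc A B h).1)
      Pool.Agent.Q8.QH.rl4_inj (δ' / 2) (by positivity) (by linarith) ε hε
    obtain ⟨M, hM⟩ := Pool.Agent.TH841.LS.big_loglog (δ' / 2) (((R1 + R2 : ℕ) : ℝ) + 2)
      (by positivity)
    refine ⟨R1 + R2, H1 + H2 + M, fun H hH => ?_⟩
    have hm := hM H (by omega)
    push_cast at hm
    have hR1 : (0 : ℝ) ≤ R1 := Nat.cast_nonneg _
    have hR2 : (0 : ℝ) ≤ R2 := Nat.cast_nonneg _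
    have hl : 0 ≤ Real.log (Real.log H) := by
      by_contra hcon
      push Not at hcon
      nlinarith
    have hup : ∀ R a b, Pool.Agent.Q8.QH.NE R δ' (Real.log (Real.log H)) a b → R ≤ R1 + R2 →
        Normal (R1 + R2) δ H a b := by
      intro R a b h hR
      obtain ⟨g1, g2, g3, g4⟩ := normal_of h
      exact ⟨g1, g2, g3.trans hR, g4.trans (mul_le_mul_of_nonneg_right d2 hl)⟩
    constructor
    · refine le_trans ?_ ((h1 H (by omega)).trans (le_of_eq (by rw [Full_eq])))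
      rw [Nat.cast_le]
      refine card_le_card fun c hc => ?_
      obtain ⟨hc1, hc2⟩ := mem_filter.1 hc
      refine mem_filter.2 ⟨by rw [← Full_eq]; exact hc1, fun hcon => hc2 ?_⟩
      intro a b hab
      obtain ⟨A, B, hr, rfl, rfl⟩ := full_par hc1 hab
      exact hup R1 _ _ (Pool.Agent.Q8.QH.ne_full (hcon A B hr) (by linarith)) (by omega)
    · refine le_trans ?_ ((h2 H (by omega)).trans (le_of_eq (by rw [Four_eq])))
      rw [Nat.cast_le]
      refine card_le_card fun c hc => ?_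
      obtain ⟨hc1, hc2⟩ := mem_filter.1 hc
      rw [Four_eq] at hc1
      refine mem_filter.2 ⟨hc1, fun hcon => hc2 ?_⟩
      rintro a b ⟨t, ht, rfl, rfl⟩ hsq
      obtain ⟨s, hs⟩ := hsq
      have hs2 : 3 * t ^ 2 + c.1 = s ^ 2 := by rw [hs]; ring
      have hrl : Pool.Agent.Q8.QH.Rl4 c (3 * t + 2 * s) (3 * t - 2 * s) := by
        refine ⟨t, s, ?_, ?_, rfl, rfl⟩
        · unfold Pool.Agent.Q8.FI.cA
          linarith
        · unfold Pool.Agent.Q8.FI.cB
          have : c.1 = s ^ 2 - 3 * t ^ 2 := by linarith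
          rw [this] at ht
          linarith
      have hne := (Pool.Agent.Q8.QH.rl4_bd H c hc1 _ _ hrl).2.2.2
      have hs0 : s ≠ 0 := by
        rintro rfl
        exact hne (by ring)
      rw [hs2]
      exact hup R2 _ _ (Pool.Agent.Q8.QH.ne_four hs0 (hcon _ _ hrl) (by linarith)) (by omega)
  refine ⟨?_, ?_, key, fun K ε hε => ?_⟩
  · simp only [Full_eq]
    exact Pool.Agent.Q8.QH.low_tendsto Pool.Agent.Q8.QH.low2
  · simp only [Four_eq]
    exact Pool.Agent.Q8.QH.low_tendsto Pool.Agent.Q8.QH.low4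
  · obtain ⟨R, H₀, h⟩ := key (1 / 2) ε (by norm_num) hε
    obtain ⟨M, hM⟩ := Pool.Agent.TH841.LS.big_loglog 1 (((R + K : ℕ) : ℝ) + 1) one_pos
    refine ⟨H₀ + M, fun H hH => ?_⟩
    have hl := hM H (by omega)
    rw [one_mul] at hl
    obtain ⟨h1, h2⟩ := h H (by omega)
    have hgap : ∀ a b : ℤ, Normal R (1 / 2) H a b → (r a b : ℤ) + K < s a b := by
      intro a b hn
      obtain ⟨-, -, g3, g5⟩ := hn
      have g6 := (abs_le.1 g5).1
      have g7 : ((R + K : ℕ) : ℝ) + 1 ≤ (s a b : ℝ) := by linarith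
      have g8 : ((R + K + 1 : ℕ) : ℤ) ≤ s a b := by
        have : (((R + K + 1 : ℕ) : ℤ) : ℝ) ≤ (s a b : ℝ) := by
          push_cast
          push_cast at g7
          linarith
        exact_mod_cast this
      push_cast at g8
      have g9 : (r a b : ℤ) ≤ R := by exact_mod_cast g3
      linarith
    constructor
    · refine le_trans ?_ h1
      rw [Nat.cast_le]
      refine card_le_card fun c hc => ?_
      obtain ⟨hc1, hc2⟩ := mem_filter.1 hc
      exact mem_filter.2 ⟨hc1, fun hcon => hc2 fun a b hab => hgap a b (hcon a b hab)⟩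
    · refine le_trans ?_ h2
      rw [Nat.cast_le]
      refine card_le_card fun c hc => ?_
      obtain ⟨hc1, hc2⟩ := mem_filter.1 hc
      exact mem_filter.2 ⟨hc1, fun hcon => hc2 fun a b hab hsq => hgap a b (hcon a b hab hsq)⟩

end Pool.Agent.Results.MP_e2b281_nt.AllCurvesByHeight
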