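import Pool.Agent.TH841.NO.Fin

/-!
# The rank and the 2-isogeny Selmer rank of almost all curves `y² = x (x - D m) (x - D n)`

For `E : y² = x³ + a x² + b x` with `a = - (A + B)`, `b = A B`, that is `y² = x (x - A) (x - B)`, and
`A = D m`, `B = D n` with coprime `m`, `n`: for almost all pairs `(m, n)` of every short square the
rank `r` and the exponent `f₂` are bounded by a constant, while the 2-isogeny Selmer rank
`s = f₁ + f₂ - 2` is `(3 / 2 + o (1)) log log X`. In particular `s - r` is larger than any given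
constant for almost all pairs, and every pair of values `(r, s)` has density zero.

From the starting theorem `Pool.Agent.TH841.NO.final2` (project NO: Selmer groups of pencils,
linear algebra and quadratic reciprocity), which had not been handed in.
-/

set_option autoImplicit false

namespace Pool.Agent.Results.MP_e2b281_nt.CoprimePairs

open Finset

/-- the quartic `N² = b₁ M⁴ + a M² e² + (b / b₁) e⁴` has a solution in `K` with `(M, e) ≠ (0, 0)` -/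
def Solvable (K : Type) [Field K] (a b b₁ : ℤ) : Prop := ∃ N M e : K, (M ≠ 0 ∨ e ≠ 0) ∧
  N ^ 2 = (b₁ : K) * M ^ 4 + (a : K) * M ^ 2 * e ^ 2 + ((b / b₁ : ℤ) : K) * e ^ 4

/-- the squarefree `b₁ ∣ b` for which the quartic is everywhere locally solvable -/
def ELS (a b : ℤ) : Set ℤ := {b₁ | Squarefree b₁ ∧ b₁ ∣ b ∧ Solvable ℝ a b b₁ ∧
  ∀ (p : ℕ) [Fact p.Prime], Solvable ℚ_[p] a b b₁}

/-- the exponent `f₁` of `y² = x³ + a x² + b x` -/
noncomputable def f₁ (a b : ℤ) : ℕ := Nat.log 2 (ELS a b).ncard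

/-- the exponent `f₂` of `y² = x³ + a x² + b x`: the exponent `f₁` of the 2-isogenous curve
`y² = x³ - 2 a x² + (a² - 4 b) x` -/
noncomputable def f₂ (a b : ℤ) : ℕ := f₁ (-2 * a) (a ^ 2 - 4 * b)

/-- the Selmer rank `s = f₁ + f₂ - 2` -/
noncomputable def s (a b : ℤ) : ℤ := f₁ a b + f₂ a b - 2

/-- the curve `y² = x³ + a x² + b x` -/
def E (a b : ℤ) : WeierstrassCurve ℚ := ⟨0, (a : ℚ), 0, (b : ℚ), 0⟩

/-- the rank of `y² = x³ + a x² + b x` -/
noncomputable def r (a b : ℤ) : ℕ := Module.finrank ℤ (E a b).toAffine.Point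

/-- The pair `(m, n)` is normal (for `D`, `R`, `δ`, `X`): for `A = D m`, `B = D n` the curve
`y² = x (x - A) (x - B)`, that is `y² = x³ + a x² + b x` with `a = - (A + B)`, `b = A B`, is an elliptic
curve, `r ≤ R`, `f₂ ≤ R` and `|s - (3 / 2) log log X| ≤ δ log log X`. -/
def Normal (D : ℤ) (R : ℕ) (δ : ℝ) (X : ℕ) (m n : ℤ) : Prop :=
  ∀ A B a b : ℤ, A = D * m → B = D * n → a = -(A + B) → b = A * B →
    b ≠ 0 ∧ a ^ 2 - 4 * b ≠ 0 ∧ r a b ≤ R ∧ f₂ a b ≤ R ∧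
      |(s a b : ℝ) - 3 / 2 * Real.log (Real.log X)| ≤ δ * Real.log (Real.log X)

/-- `s - r > K` for the pair `(m, n)` -/
def Gap (D : ℤ) (K : ℕ) (m n : ℤ) : Prop :=
  ∀ A B a b : ℤ, A = D * m → B = D * n → a = -(A + B) → b = A * B → (r a b : ℤ) + K < s a b

/-- `log log X` is eventually large -/
lemma big_ll (c : ℝ) : ∃ X1 : ℕ, ∀ X : ℕ, X1 ≤ X → c ≤ Real.log (Real.log X) := by
  have h : Filter.Tendsto (fun X : ℕ => Real.log (Real.log X)) Filter.atTop Filter.atTop :=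
    Real.tendsto_log_atTop.comp (Real.tendsto_log_atTop.comp tendsto_natCast_atTop_atTop)
  obtain ⟨X1, h1⟩ := Filter.eventually_atTop.1 (h.eventually_ge_atTop c)
  exact ⟨X1, h1⟩

open Classical in
/-- **Theorem.** Let `D ≠ 0` be an integer, `δ, ε > 0` real and `L` natural. (1) There are `R` and
`X₀` such that for all `X ≥ X₀` and all integers `N₁, N₂` of absolute value at most `X ^ L` the number
of the pairs of coprime integers `m ∈ (N₁, N₁ + X]`, `n ∈ (N₂, N₂ + X]` which are not normal is at most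
`ε X²`. (2) For every `K` there is `X₀` such that for all these `X, N₁, N₂` the number of the pairs of
coprime integers for which `s ≤ r + K` is at most `ε X²`. -/
theorem result (D : ℤ) (hD : D ≠ 0) (δ ε : ℝ) (hδ : 0 < δ) (hε : 0 < ε) (L : ℕ) :
    (∃ R X₀ : ℕ, ∀ (N₁ N₂ : ℤ) (X : ℕ), X₀ ≤ X → |N₁| ≤ (X : ℤ) ^ L → |N₂| ≤ (X : ℤ) ^ L →
      (((Ioc N₁ (N₁ + X) ×ˢ Ioc N₂ (N₂ + X)).filter (fun t : ℤ × ℤ =>
        IsCoprime t.1 t.2 ∧ ¬ Normal D R δ X t.1 t.2)).card : ℝ) ≤ ε * (X : ℝ) ^ 2) ∧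
    ∀ K : ℕ, ∃ X₀ : ℕ, ∀ (N₁ N₂ : ℤ) (X : ℕ), X₀ ≤ X → |N₁| ≤ (X : ℤ) ^ L →
      |N₂| ≤ (X : ℤ) ^ L →
      (((Ioc N₁ (N₁ + X) ×ˢ Ioc N₂ (N₂ + X)).filter (fun t : ℤ × ℤ =>
        IsCoprime t.1 t.2 ∧ ¬ Gap D K t.1 t.2)).card : ℝ) ≤ ε * (X : ℝ) ^ 2 := by
  have key : ∀ δ : ℝ, 0 < δ → ∃ R X₀ : ℕ, ∀ (N₁ N₂ : ℤ) (X : ℕ), X₀ ≤ X → |N₁| ≤ (X : ℤ) ^ L →
      |N₂| ≤ (X : ℤ) ^ L →
      (((Ioc N₁ (N₁ + X) ×ˢ Ioc N₂ (N₂ + X)).filter (fun t : ℤ × ℤ =>
        IsCoprime t.1 t.2 ∧ ¬ Normal D R δ X t.1 t.2)).card : ℝ) ≤ ε * (X : ℝ) ^ 2 := by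
    intro δ hδ
    obtain ⟨R, X₀, h⟩ := Pool.Agent.TH841.NO.final2 D hD δ ε L hδ hε
    refine ⟨R, X₀, fun N₁ N₂ X hX h1 h2 => ?_⟩
    have k1 : N₁.natAbs ≤ X ^ L := by
      have h3 : (N₁.natAbs : ℤ) ≤ (X : ℤ) ^ L := by rwa [Int.natCast_natAbs]
      exact_mod_cast h3
    have k2 : N₂.natAbs ≤ X ^ L := by
      have h3 : (N₂.natAbs : ℤ) ≤ (X : ℤ) ^ L := by rwa [Int.natCast_natAbs]
      exact_mod_cast h3
    refine le_trans ?_ (h N₁ N₂ X hX k1 k2)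
    let F : ℤ × ℤ → ℕ × ℕ := fun t => ((t.1 - N₁).toNat, (t.2 - N₂).toNat)
    rw [Nat.cast_le]
    refine card_le_card_of_injOn F ?_ ?_
    · intro t ht
      obtain ⟨ht1, ht2, ht3⟩ := mem_filter.1 (mem_coe.1 ht)
      rw [mem_product, mem_Ioc, mem_Ioc] at ht1
      have e1 : N₁ + ((F t).1 : ℤ) = t.1 := by
        change N₁ + ((t.1 - N₁).toNat : ℤ) = t.1
        omega
      have e2 : N₂ + ((F t).2 : ℤ) = t.2 := by
        change N₂ + ((t.2 - N₂).toNat : ℤ) = t.2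
        omega
      rw [mem_coe, mem_filter, mem_product, mem_Icc, mem_Icc, e1, e2]
      refine ⟨?_, ht2, fun hcon => ht3 ?_⟩
      · change (1 ≤ (t.1 - N₁).toNat ∧ (t.1 - N₁).toNat ≤ X) ∧
          (1 ≤ (t.2 - N₂).toNat ∧ (t.2 - N₂).toNat ≤ X)
        omega
      · rintro A B a b hA hB rfl rfl
        obtain ⟨g1, g2, g3, g4, g5, g6⟩ := hcon A B hA hB
        refine ⟨mul_ne_zero g1 g2, ?_, g4, g5, g6⟩
        have e : (-(A + B)) ^ 2 - 4 * (A * B) = (A - B) ^ 2 := by ring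
        rw [e]
        exact pow_ne_zero 2 (sub_ne_zero.2 g3)
    · intro t ht t' ht' he
      obtain ⟨ht1, -, -⟩ := mem_filter.1 (mem_coe.1 ht)
      obtain ⟨ht1', -, -⟩ := mem_filter.1 (mem_coe.1 ht')
      rw [mem_product, mem_Ioc, mem_Ioc] at ht1 ht1'
      have e1 : (t.1 - N₁).toNat = (t'.1 - N₁).toNat := congrArg Prod.fst he
      have e2 : (t.2 - N₂).toNat = (t'.2 - N₂).toNat := congrArg Prod.snd he
      exact Prod.ext (by omega) (by omega)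
  refine ⟨key δ hδ, fun K => ?_⟩
  obtain ⟨R, X₀, h⟩ := key (1 / 2) (by norm_num)
  obtain ⟨X1, hX1⟩ := big_ll (R + K + 1)
  refine ⟨X₀ + X1, fun N₁ N₂ X hX h1 h2 => ?_⟩
  refine le_trans ?_ (h N₁ N₂ X (by omega) h1 h2)
  have hl := hX1 X (by omega)
  rw [Nat.cast_le]
  refine card_le_card fun t ht => ?_
  obtain ⟨ht1, ht2, hi⟩ := mem_filter.1 ht
  refine mem_filter.2 ⟨ht1, ht2, fun hcon => hi ?_⟩
  intro A B a b hA hB ha hb
  obtain ⟨-, -, g3, -, g5⟩ := hcon A B a b hA hB ha hb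
  have g6 := (abs_le.1 g5).1
  have g7 : (R : ℝ) + K + 1 ≤ (s a b : ℝ) := by linarith
  have g8 : ((R + K + 1 : ℕ) : ℤ) ≤ s a b := by exact_mod_cast g7
  push_cast at g8
  have g9 : (r a b : ℤ) ≤ R := by exact_mod_cast g3
  linarith

end Pool.Agent.Results.MP_e2b281_nt.CoprimePairs
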