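import Mathlib
import Pool.Agent.Q284.ISO.Main
import Pool.Agent.Y667.MT.Rank
import Pool.Agent.Y667.RP.Disc
import Pool.Agent.W672.FK.Lowf
import Pool.Agent.W307.RT.Tors
import Pool.Agent.Y700.VC

/-!
# The parity of the rank and of the 2-isogeny Selmer rank for a positive proportion of the curves
with full rational 2-torsion

All elliptic curves `E` over `ℚ` with full rational 2-torsion, ordered by the naive height or by the
absolute value of the minimal discriminant. Such a curve has equations `y² = x³ + a x² + b x` for three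
2-isogenies. For every `T` a positive proportion of the curves has rank `0`, satisfies the congruence
`r ≡ f₁ + f₂ - 2 (mod 2)` for ALL its equations `y² = x³ + a x² + b x`, `a, b ∈ ℤ`, and has an equation
with `f₁ + f₂ - 2 ≥ T`.
-/

namespace Pool.Agent.Results.MP_e2b281_nt.FullTwoTorsionPositiveProportion

open Finset Filter Topology

/-- the curve `y² = x³ + A x + B` over `ℚ` -/
def E (A B : ℤ) : WeierstrassCurve ℚ := ⟨0, 0, 0, (A : ℚ), (B : ℚ)⟩

/-- the absolute value of the minimal discriminant of an elliptic curve `W` over `ℚ`: the smallest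
absolute value of the discriminant of a Weierstrass equation `V` with integer coefficients which is
isomorphic to `W` over `ℚ` -/
noncomputable def minDisc (W : WeierstrassCurve ℚ) : ℕ :=
  sInf {n : ℕ | ∃ (V : WeierstrassCurve ℤ) (C : WeierstrassCurve.VariableChange ℚ),
    C • W = V.map (Int.castRingHom ℚ) ∧ n = V.Δ.natAbs}

/-- the naive height of `y² = x³ + A x + B` is at most `Z` -/
def HeightLe (c : ℤ × ℤ) (Z : ℕ) : Prop := 4 * |c.1| ^ 3 ≤ Z ∧ 27 * c.2 ^ 2 ≤ Z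

/-- the minimal discriminant of `y² = x³ + A x + B` is at most `Z` in absolute value -/
def DiscLe (c : ℤ × ℤ) (Z : ℕ) : Prop := minDisc (E c.1 c.2) ≤ Z

/-- The pairs `(A, B)` of integers such that `4 A³ + 27 B² ≠ 0`, there is no prime `p` with
`p⁴ ∣ A` and `p⁶ ∣ B`, `Z/2 x Z/2` embeds in the group of the rational points of
`y² = x³ + A x + B`, and the size (`HeightLe` or `DiscLe`) is at most `Z`. Every elliptic curve over
`ℚ` with full rational 2-torsion is isomorphic to `E A B` for exactly one pair with the first three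
properties. -/
def Fam (I : ℤ × ℤ → ℕ → Prop) (Z : ℕ) : Set (ℤ × ℤ) :=
  {c : ℤ × ℤ | 4 * c.1 ^ 3 + 27 * c.2 ^ 2 ≠ 0 ∧
    (∀ p : ℕ, p.Prime → ¬ ((p : ℤ) ^ 4 ∣ c.1 ∧ (p : ℤ) ^ 6 ∣ c.2)) ∧
    (∃ f : ZMod 2 × ZMod 2 →+ (E c.1 c.2).toAffine.Point, Function.Injective f) ∧ I c Z}

/-- the proportion of the curves of `S` among the curves of size at most `Z` -/
noncomputable def proportion (I : ℤ × ℤ → ℕ → Prop) (S : Set (ℤ × ℤ)) (Z : ℕ) : ℝ :=
  ((Fam I Z ∩ S).ncard : ℝ) / (Fam I Z).ncard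

lemma FamH_eq (H : ℕ) : Fam HeightLe H = (Pool.Agent.W307.RT.Cv 2 H : Set (ℤ × ℤ)) := by
  classical
  ext c
  have h : Pool.Agent.W307.RT.HasT 2 (Pool.Agent.W307.RT.Sh c.1 c.2) ↔
    ∃ f : ZMod 2 × ZMod 2 →+ (E c.1 c.2).toAffine.Point, Function.Injective f :=
    Pool.Agent.W307.RT.tors_iff
  unfold Fam HeightLe Pool.Agent.W307.RT.Cv
  rw [Set.mem_ofPred_eq, mem_coe, mem_filter, h, mem_product, mem_Icc, mem_Icc]
  constructor
  · rintro ⟨h1, h2, h3, h4, h5⟩
    refine ⟨⟨?_, ?_⟩, h1, h4, h5, h2, h3⟩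
    · rw [← abs_le]
      have h0 := abs_nonneg c.1
      rcases eq_or_lt_of_le h0 with h6 | h6
      · rw [← h6]; positivity
      · have : 1 ≤ |c.1| := h6
        nlinarith [mul_nonneg h0 h0, mul_self_nonneg (|c.1| - 1)]
    · rw [← abs_le]
      have h0 := abs_nonneg c.2
      rw [← sq_abs] at h5
      rcases eq_or_lt_of_le h0 with h6 | h6
      · rw [← h6]; positivity
      · have : 1 ≤ |c.2| := h6
        nlinarith
  · rintro ⟨-, h1, h4, h5, h2, h3⟩
    exact ⟨h1, h2, h3, h4, h5⟩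

lemma FamD_eq (D : ℕ) : Fam DiscLe D = (Pool.Agent.TH344.DS.Dv D : Set (ℤ × ℤ)) := by
  classical
  have h0 : Fam DiscLe D = Pool.Agent.W307.RS.DvS 2 D := by
    ext c
    have h : Pool.Agent.W307.RT.HasT 2 (Pool.Agent.W307.RT.Sh c.1 c.2) ↔
        ∃ f : ZMod 2 × ZMod 2 →+ (E c.1 c.2).toAffine.Point, Function.Injective f :=
      Pool.Agent.W307.RT.tors_iff
    unfold Fam Pool.Agent.W307.RS.DvS
    rw [Set.mem_ofPred_eq, Set.mem_ofPred_eq, h]
    exact Iff.rfl
  rw [h0]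
  unfold Pool.Agent.TH344.DS.Dv
  rw [dif_pos (Pool.Agent.TH344.DS.excd.1 D), Set.Finite.coe_toFinset]

/-- The number of these curves tends to infinity (ordering by height). -/
lemma tendstoH : Tendsto (fun Z : ℕ => (Fam HeightLe Z).ncard) atTop atTop := by
  simp only [FamH_eq, Set.ncard_coe_finset]
  exact Pool.Agent.W307.RT.tendsto_of_low Pool.Agent.W672.FK.lowf

/-- The number of these curves tends to infinity (ordering by the minimal discriminant). -/
lemma tendstoD : Tendsto (fun Z : ℕ => (Fam DiscLe Z).ncard) atTop atTop := by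
  have h1 := Pool.Agent.W307.RT.tendsto_of_low Pool.Agent.W672.FK.lowf
  have h2 : Tendsto (fun D : ℕ => (Pool.Agent.W307.RT.Cv 2 (D / 32)).card) atTop atTop :=
    h1.comp (Nat.tendsto_div_const_atTop (by norm_num))
  obtain ⟨hD1, hD2, hD3⟩ := Pool.Agent.TH344.DS.excd
  refine tendsto_atTop_mono (fun D => ?_) h2
  have h3 : (Pool.Agent.TH344.DS.Dv D : Set (ℤ × ℤ)) = Pool.Agent.W307.RS.DvS 2 D := by
    unfold Pool.Agent.TH344.DS.Dv
    rw [dif_pos (hD1 D), Set.Finite.coe_toFinset]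
  rw [FamD_eq, h3, ← Set.ncard_coe_finset]
  exact Set.ncard_le_ncard (Pool.Agent.W307.RS.Cv_sub Pool.Agent.W554.RS.mdl 2 (D / 32) D
    (Nat.mul_div_le D 32)) (hD1 D)

/-- The local condition at a completion `K` of `ℚ`: there is a point `(x, y)`, `y ≠ 0`, of
`y² = x³ + A x + B` over `K` such that `(x - e) * d e` is a square for all the integer roots `e` of
`x³ + A x + B`. (Every class of `E(K) / 2 E(K)` contains a point with `y ≠ 0`.) -/
def Local (K : Type) [Field K] (A B : ℤ) (d : ℤ → ℤ) : Prop :=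
  ∃ x y : K, y ≠ 0 ∧ y ^ 2 = x ^ 3 + A * x + B ∧
    ∀ e : ℤ, e ^ 3 + A * e + B = 0 → IsSquare ((x - e) * d e)

/-- The 2-Selmer group of `y² = x³ + A x + B`, a curve with three integer roots. As `E[2]` is the
group of the families of signs with product one indexed by the roots, an element of the 2-Selmer
group is a family of classes of nonzero rational numbers modulo squares indexed by the roots `e`,
given by squarefree integers `d e` (`d e = 1` if `e` is not a root), which over `ℝ` and over `ℚ_[p]`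
for all primes `p` is the family of the classes of `x - e` for a point of the curve. -/
def Sel2 (A B : ℤ) : Set (ℤ → ℤ) :=
  {d | (∀ e, Squarefree (d e)) ∧ (∀ e : ℤ, e ^ 3 + A * e + B ≠ 0 → d e = 1) ∧ Local ℝ A B d ∧
    ∀ (p : ℕ) [Fact p.Prime], Local ℚ_[p] A B d}

/-- the Mordell-Weil rank over `ℚ` -/
noncomputable def rank (c : ℤ × ℤ) : ℕ := Module.finrank ℤ (E c.1 c.2).toAffine.Point

/-- the curve `y² = x³ + a x² + b x` over `ℚ` -/
def Mod (a b : ℤ) : WeierstrassCurve ℚ := ⟨0, (a : ℚ), 0, (b : ℚ), 0⟩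

/-- The squarefree integers `b₁` (positive or negative) which divide `b` and for which the quartic
`N² = b₁ M⁴ + a M² e² + (b / b₁) e⁴` has a solution with `(M, e) ≠ (0, 0)` over `ℝ` and over `ℚ_[p]` for
all primes `p`. -/
def Classes (a b : ℤ) : Set ℤ :=
  {b₁ : ℤ | Squarefree b₁ ∧ b₁ ∣ b ∧
    (∃ N M e : ℝ, (M ≠ 0 ∨ e ≠ 0) ∧
      N ^ 2 = (b₁ : ℝ) * M ^ 4 + (a : ℝ) * M ^ 2 * e ^ 2 + ((b / b₁ : ℤ) : ℝ) * e ^ 4) ∧
    ∀ (p : ℕ) [Fact p.Prime], ∃ N M e : Padic p, (M ≠ 0 ∨ e ≠ 0) ∧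
      N ^ 2 = (b₁ : Padic p) * M ^ 4 + (a : Padic p) * M ^ 2 * e ^ 2
        + ((b / b₁ : ℤ) : Padic p) * e ^ 4}

/-- `f₁` and `f₂` are the exponents of the equation `y² = x³ + a x² + b x`: the orders of the two
groups of classes, for `(a, b)` and for `(-2 a, a² - 4 b)`, are `2 ^ f₁` and `2 ^ f₂` -/
def Exps (a b : ℤ) (f₁ f₂ : ℕ) : Prop :=
  (Classes a b).ncard = 2 ^ f₁ ∧ (Classes (-2 * a) (a ^ 2 - 4 * b)).ncard = 2 ^ f₂

/-- `y² = x³ + a x² + b x` is an equation of the curve `y² = x³ + A x + B`, `c = (A, B)` -/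
def IsModel (c : ℤ × ℤ) (a b : ℤ) : Prop :=
  ∃ C : WeierstrassCurve.VariableChange ℚ, C • E c.1 c.2 = Mod a b

/-- The rank of `y² = x³ + a x² + b x` and `s = f₁ + f₂ - 2` have the same parity. -/
def Congruence (a b : ℤ) : Prop :=
  ∃ f₁ f₂ : ℕ, Exps a b f₁ f₂ ∧ Even (Module.finrank ℤ (Mod a b).toAffine.Point + f₁ + f₂)

/-- the curves which have an equation `y² = x³ + a x² + b x` with `f₁ + f₂ - 2 ≥ T` -/
def Large (T : ℕ) : Set (ℤ × ℤ) :=
  {c | ∃ a b : ℤ, IsModel c a b ∧ ∃ f₁ f₂ : ℕ, Exps a b f₁ f₂ ∧ T + 2 ≤ f₁ + f₂}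

/-- the curves of rank `0` for which the congruence holds for all the equations
`y² = x³ + a x² + b x` with integers `a`, `b` -/
def RankZeroCongruence : Set (ℤ × ℤ) :=
  {c | rank c = 0 ∧ ∀ a b : ℤ, IsModel c a b → Congruence a b}

/-- the curves with a 2-Selmer group of order `2 ^ (r + 2)`, rank at most `r`, and
`f₁ + f₂ - 2 ≡ r (mod 2)` for all the equations `y² = x³ + a x² + b x` with integers `a`, `b` -/
def SelmerCongruence (r : ℕ) : Set (ℤ × ℤ) :=
  {c | (Sel2 c.1 c.2).Finite ∧ (Sel2 c.1 c.2).ncard = 2 ^ (r + 2) ∧ rank c ≤ r ∧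
    ∀ a b : ℤ, IsModel c a b → ∃ f₁ f₂ : ℕ, Exps a b f₁ f₂ ∧ Even (f₁ + f₂ + r)}

lemma rank_model {c : ℤ × ℤ} (hD : 4 * c.1 ^ 3 + 27 * c.2 ^ 2 ≠ 0) {a b : ℤ}
    (h : IsModel c a b) : Module.finrank ℤ (Mod a b).toAffine.Point = rank c := by
  obtain ⟨C, hC⟩ := h
  have hE : (E c.1 c.2).Δ ≠ 0 := by
    have e : (E c.1 c.2).Δ = -16 * (4 * (c.1 : ℚ) ^ 3 + 27 * (c.2 : ℚ) ^ 2) := by
      unfold E
      simp only [WeierstrassCurve.Δ, WeierstrassCurve.b₂, WeierstrassCurve.b₄,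
        WeierstrassCurve.b₆, WeierstrassCurve.b₈]
      ring
    rw [e]
    have hQ : (4 * (c.1 : ℚ) ^ 3 + 27 * (c.2 : ℚ) ^ 2) ≠ 0 := by exact_mod_cast hD
    exact mul_ne_zero (by norm_num) hQ
  have hu : ((C.u⁻¹ : ℚˣ) : ℚ) = (C.u : ℚ)⁻¹ := by push_cast; rfl
  have hu0 : (C.u : ℚ) ≠ 0 := Units.ne_zero _
  have hM : (Mod a b).Δ ≠ 0 := by
    rw [← hC, WeierstrassCurve.variableChange_Δ, hu]
    exact mul_ne_zero (pow_ne_zero _ (inv_ne_zero hu0)) hE
  have hVR : Pool.Agent.Y700.VR (E c.1 c.2) (Mod a b) (C.u : ℚ) C.r C.s C.t := by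
    rw [← hC]
    refine ⟨hu0, ?_, ?_, ?_, ?_, ?_⟩
    · rw [WeierstrassCurve.variableChange_a₁, hu]; field_simp
    · rw [WeierstrassCurve.variableChange_a₂, hu]; field_simp
    · rw [WeierstrassCurve.variableChange_a₃, hu]; field_simp
    · rw [WeierstrassCurve.variableChange_a₄, hu]; field_simp
    · rw [WeierstrassCurve.variableChange_a₆, hu]; field_simp
  unfold rank
  exact (hVR.equiv hM).toIntLinearEquiv.finrank_eq

lemma cong_of {r T : ℕ} {c : ℤ × ℤ} (hD : 4 * c.1 ^ 3 + 27 * c.2 ^ 2 ≠ 0)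
    (hT : ∃ f : ZMod 2 × ZMod 2 →+ (E c.1 c.2).toAffine.Point, Function.Injective f)
    (h : Pool.Agent.Q284.ISO.TT r T c) : c ∈ SelmerCongruence r ∩ Large T := by
  have hT' := Pool.Agent.W307.RT.tors_iff.2 hT
  obtain ⟨⟨h1, h2⟩, α, β, hC, f1, f2, k1, k2, k3⟩ := h
  refine ⟨⟨h1.1, h1.2.1, Pool.Agent.Y667.MT.rank_le hD hT' h1.1 h1.2.1, ?_⟩,
    α, β, hC, f1, f2, ⟨k1, k2⟩, k3⟩
  intro a b hab
  obtain ⟨g1, g2, l1, l2, l3⟩ := h2 a b hab
  exact ⟨g1, g2, ⟨l1, l2⟩, l3⟩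

lemma zero_of {T : ℕ} {c : ℤ × ℤ} (hD : 4 * c.1 ^ 3 + 27 * c.2 ^ 2 ≠ 0)
    (h : c ∈ SelmerCongruence 0 ∩ Large T) : c ∈ RankZeroCongruence ∩ Large T := by
  obtain ⟨⟨h1, h2, h3, h4⟩, h5⟩ := h
  have h0 : rank c = 0 := Nat.le_zero.1 h3
  refine ⟨⟨h0, fun a b hab => ?_⟩, h5⟩
  obtain ⟨f1, f2, k1, k2⟩ := h4 a b hab
  refine ⟨f1, f2, k1, ?_⟩
  rw [rank_model hD hab, h0, zero_add]
  exact k2

/-- **Theorem.** Order the elliptic curves over `ℚ` with full rational 2-torsion by the naive height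
or by the absolute value of the minimal discriminant. For both orderings there are finitely many
curves of size at most `Z` and their number tends to infinity with `Z`.

* For every `T` a positive proportion of the curves (the lower density is positive) has rank `0`,
  satisfies the congruence `r ≡ f₁ + f₂ - 2 (mod 2)` for all its equations `y² = x³ + a x² + b x` with
  integers `a`, `b` (that is, for all its three 2-isogenies), and has such an equation with
  `f₁ + f₂ - 2 ≥ T`.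
* For all `r` and `T` a positive proportion of the curves has a 2-Selmer group of order `2 ^ (r + 2)`,
  rank at most `r`, satisfies `f₁ + f₂ - 2 ≡ r (mod 2)` for all its equations
  `y² = x³ + a x² + b x`, and has such an equation with `f₁ + f₂ - 2 ≥ T`. -/
theorem result : ∀ I : ℤ × ℤ → ℕ → Prop, I = HeightLe ∨ I = DiscLe →
    (∀ Z : ℕ, (Fam I Z).Finite) ∧ Tendsto (fun Z : ℕ => (Fam I Z).ncard) atTop atTop ∧
    (∀ T : ℕ, ∃ δ : ℝ, 0 < δ ∧
      ∀ᶠ Z : ℕ in atTop, δ ≤ proportion I (RankZeroCongruence ∩ Large T) Z) ∧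
    ∀ r T : ℕ, ∃ δ : ℝ, 0 < δ ∧
      ∀ᶠ Z : ℕ in atTop, δ ≤ proportion I (SelmerCongruence r ∩ Large T) Z := by
  classical
  have h0 : ∀ r T : ℕ, ∃ c : ℝ, 0 < c ∧ ∃ H0 : ℕ, ∀ H : ℕ, H0 ≤ H →
      c * ((Pool.Agent.W307.RT.Cv 2 H).card : ℝ) ≤
        (((Pool.Agent.W307.RT.Cv 2 H).filter (Pool.Agent.Q284.ISO.TT r T)).card : ℝ) := by
    intro r T
    obtain ⟨c, hc, H0, h⟩ := Pool.Agent.Q284.ISO.curvesTT r T
    refine ⟨c, hc, H0, fun H hH => (h H hH).trans
      (Nat.cast_le.2 (card_le_card fun k hk => ?_))⟩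
    rw [mem_filter] at hk ⊢
    exact hk
  have hsub : ∀ (I : ℤ × ℤ → ℕ → Prop) (Z r T : ℕ) (k : ℤ × ℤ), k ∈ Fam I Z →
      Pool.Agent.Q284.ISO.TT r T k → k ∈ Fam I Z ∩ (SelmerCongruence r ∩ Large T) := by
    intro I Z r T k hk hPk
    exact ⟨hk, cong_of hk.1 hk.2.2.1 hPk⟩
  have hfin : ∀ I : ℤ × ℤ → ℕ → Prop, I = HeightLe ∨ I = DiscLe → ∀ Z : ℕ, (Fam I Z).Finite := by
    rintro I (rfl | rfl) Z
    · rw [FamH_eq]
      exact finite_toSet _
    · rw [FamD_eq]
      exact finite_toSet _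
  have hmain : ∀ I : ℤ × ℤ → ℕ → Prop, I = HeightLe ∨ I = DiscLe → ∀ r T : ℕ, ∃ δ : ℝ, 0 < δ ∧
      ∀ᶠ Z : ℕ in atTop, δ ≤ proportion I (SelmerCongruence r ∩ Large T) Z := by
    intro I hI r T
    rcases hI with rfl | rfl
    · obtain ⟨c, hc, H0, h⟩ := h0 r T
      refine ⟨c, hc, ?_⟩
      filter_upwards [eventually_ge_atTop H0, tendstoH.eventually_ge_atTop 1] with H hH hH1
      unfold proportion
      rw [le_div_iff₀ (by exact_mod_cast hH1)]
      have e1 : (Fam HeightLe H).ncard = (Pool.Agent.W307.RT.Cv 2 H).card := by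
        rw [FamH_eq, Set.ncard_coe_finset]
      rw [e1]
      refine (h H hH).trans (Nat.cast_le.2 ?_)
      rw [← Set.ncard_coe_finset]
      refine Set.ncard_le_ncard (fun k hk => ?_) (Set.Finite.inter_of_left
        (hfin _ (Or.inl rfl) _) _)
      rw [mem_coe, mem_filter] at hk
      refine hsub _ _ r T k ?_ hk.2
      rw [FamH_eq, mem_coe]
      exact hk.1
    · obtain ⟨c, hc, H0, h⟩ := Pool.Agent.Y667.RP.disc_of_height (Pool.Agent.Q284.ISO.TT r T)
        (h0 r T)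
      refine ⟨c, hc, ?_⟩
      filter_upwards [eventually_ge_atTop H0, tendstoD.eventually_ge_atTop 1] with H hH hH1
      unfold proportion
      rw [le_div_iff₀ (by exact_mod_cast hH1)]
      have e1 : (Fam DiscLe H).ncard = (Pool.Agent.TH344.DS.Dv H).card := by
        rw [FamD_eq, Set.ncard_coe_finset]
      rw [e1]
      refine (h H hH).trans (Nat.cast_le.2 ?_)
      rw [← Set.ncard_coe_finset]
      refine Set.ncard_le_ncard (fun k hk => ?_) (Set.Finite.inter_of_left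
        (hfin _ (Or.inr rfl) _) _)
      rw [mem_coe, mem_filter] at hk
      refine hsub _ _ r T k ?_ hk.2
      rw [FamD_eq, mem_coe]
      exact hk.1
  intro I hI
  refine ⟨hfin I hI, ?_, ?_, hmain I hI⟩
  · rcases hI with rfl | rfl
    · exact tendstoH
    · exact tendstoD
  · intro T
    obtain ⟨δ, hδ, h⟩ := hmain I hI 0 T
    refine ⟨δ, hδ, ?_⟩
    filter_upwards [h] with Z hZ
    refine hZ.trans ?_
    unfold proportion
    refine div_le_div_of_nonneg_right (Nat.cast_le.2 (Set.ncard_le_ncard (fun k hk => ?_)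
      (Set.Finite.inter_of_left (hfin I hI Z) _))) (Nat.cast_nonneg _)
    exact ⟨hk.1, zero_of hk.1.1 hk.2⟩

end Pool.Agent.Results.MP_e2b281_nt.FullTwoTorsionPositiveProportion
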