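import Pool.Agent.TH841.NO.Fin

/-!
# The rank and the 2-isogeny Selmer rank in one-parameter families with full rational 2-torsion

For `E : y² = x³ + a x² + b x` with `a = - (A + B)`, `b = A B`, that is `y² = x (x - A) (x - B)`, where
`A = D(t) u₀(t)`, `B = D(t) u₁(t)` for polynomials `D`, `u₀`, `u₁` with integer coefficients satisfying
the condition on the numbers of the irreducible factors of `u₀`, `u₁`, `u₂ = u₀ - u₁` stated below:
for almost all `t` in short intervals the rank `r` and the exponent `f₂` are bounded by a constant,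
while the 2-isogeny Selmer rank `s = f₁ + f₂ - 2` is `(κ + o (1)) log log M` with an explicit `κ > 0`.

From the starting theorem `Pool.Agent.TH841.NO.final` (project NO: Selmer groups of pencils), which
had not been handed in.
-/

set_option autoImplicit false

namespace Pool.Agent.Results.MP_e2b281_nt.Pencils

open Finset Polynomial

/-- the quartic `N² = b₁ M⁴ + a M² e² + (b / b₁) e⁴` has a solution in `K` with `(M, e) ≠ (0, 0)` -/
def Solvable (K : Type) [Field K] (a b b₁ : ℤ) : Prop := ∃ N M e : K, (M ≠ 0 ∨ e ≠ 0) ∧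
  N ^ 2 = (b₁ : K) * M ^ 4 + (a : K) * M ^ 2 * e ^ 2 + ((b / b₁ : ℤ) : K) * e ^ 4

/-- the squarefree `b₁ ∣ b` for which the quartic is everywhere locally solvable -/
def ELS (a b : ℤ) : Set ℤ := {b₁ | Squarefree b₁ ∧ b₁ ∣ b ∧ Solvable ℝ a b b₁ ∧
  ∀ (p : ℕ) [Fact p.Prime], Solvable ℚ_[p] a b b₁}

/-- the exponent `f₁` of `y² = x³ + a x² + b x` -/
noncomputable def f₁ (a b : ℤ) : ℕ := Nat.log 2 (ELS a b).ncard

/-- the exponent `f₂` of `y² = x³ + a x² + b x`: the exponent `f₁` of the 2-isogenous curve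
`y² = x³ - 2 a x² + (a² - 4 b) x` -/
noncomputable def f₂ (a b : ℤ) : ℕ := f₁ (-2 * a) (a ^ 2 - 4 * b)

/-- the Selmer rank `s = f₁ + f₂ - 2` -/
noncomputable def s (a b : ℤ) : ℤ := f₁ a b + f₂ a b - 2

/-- the curve `y² = x³ + a x² + b x` -/
def E (a b : ℤ) : WeierstrassCurve ℚ := ⟨0, (a : ℚ), 0, (b : ℚ), 0⟩

/-- the rank of `y² = x³ + a x² + b x` -/
noncomputable def r (a b : ℤ) : ℕ := Module.finrank ℤ (E a b).toAffine.Point

/-- The pair `(A, B)` is normal (for `R`, `κ`, `δ`, `M`): the curve `y² = x (x - A) (x - B)`, that is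
`y² = x³ + a x² + b x` with `a = - (A + B)`, `b = A B`, is an elliptic curve, `r ≤ R`, `f₂ ≤ R` and
`|s - κ log log M| ≤ δ log log M`. -/
def Normal (R : ℕ) (κ δ : ℝ) (M : ℕ) (A B : ℤ) : Prop :=
  ∀ a b : ℤ, a = -(A + B) → b = A * B →
    b ≠ 0 ∧ a ^ 2 - 4 * b ≠ 0 ∧ r a b ≤ R ∧ f₂ a b ≤ R ∧
      |(s a b : ℝ) - κ * Real.log (Real.log M)| ≤ δ * Real.log (Real.log M)

/-- `s - r > K` for the curve `y² = x (x - A) (x - B)` -/
def Gap (K : ℕ) (A B : ℤ) : Prop :=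
  ∀ a b : ℤ, a = -(A + B) → b = A * B → (r a b : ℤ) + K < s a b

/-- `u_k = a_k ∏ f_{k,i}` -/
noncomputable def u {n : Fin 3 → ℕ} (a : Fin 3 → ℤ) (f : ∀ k : Fin 3, Fin (n k) → ℤ[X])
    (k : Fin 3) : ℤ[X] := C (a k) * ∏ i, f k i

/-- `D = c ∏ g_i` -/
noncomputable def D {m : ℕ} (c : ℤ) (g : Fin m → ℤ[X]) : ℤ[X] := C c * ∏ i, g i

/-- `v` is a square modulo `f` in `ℚ[t]` -/
def SqMod (f v : ℤ[X]) : Prop := ∃ q : ℚ[X], f.map (Int.castRingHom ℚ) ∣
  (q ^ 2 - v.map (Int.castRingHom ℚ))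

/-- `- D u₁`, `- D u₀`, `D u₀` -/
noncomputable def v {n : Fin 3 → ℕ} {m : ℕ} (a : Fin 3 → ℤ) (f : ∀ k : Fin 3, Fin (n k) → ℤ[X])
    (c : ℤ) (g : Fin m → ℤ[X]) : Fin 3 → ℤ[X] :=
  ![-(D c g * u a f 1), -(D c g * u a f 0), D c g * u a f 0]

open Classical in
/-- the constant `κ = n₀ + n₁ - (n₂ + σ) / 2 + ρ / 2`, where `σ` is the number of the factors of
`u₂` modulo which `D u₀` is a square, and `ρ` the number of the `g_i` modulo which `u₀ u₁` is not
a square -/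
noncomputable def κ {n : Fin 3 → ℕ} {m : ℕ} (a : Fin 3 → ℤ) (f : ∀ k : Fin 3, Fin (n k) → ℤ[X])
    (c : ℤ) (g : Fin m → ℤ[X]) : ℝ :=
  (n 0 : ℝ) + n 1 -
    ((n 2 : ℝ) + (univ.filter (fun i => SqMod (f 2 i) (D c g * u a f 0))).card) / 2 +
    ((univ.filter (fun i => ¬ SqMod (g i) (u a f 0 * u a f 1))).card : ℝ) / 2

open Classical in
/-- the balance condition: `2 n_k + σ_k ≤ n₀ + n₁ + n₂` for all `k`, where `σ_k` is the number of
the factors `f_{k,i}` modulo which `v_k` is a square -/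
def Balanced {n : Fin 3 → ℕ} {m : ℕ} (a : Fin 3 → ℤ) (f : ∀ k : Fin 3, Fin (n k) → ℤ[X])
    (c : ℤ) (g : Fin m → ℤ[X]) : Prop :=
  ∀ k, 2 * n k + (univ.filter (fun i => SqMod (f k i) (v a f c g k))).card ≤ n 0 + n 1 + n 2

/-- `κ > 0` -/
lemma κ_pos {n : Fin 3 → ℕ} {m : ℕ} (a : Fin 3 → ℤ) (f : ∀ k : Fin 3, Fin (n k) → ℤ[X])
    (c : ℤ) (g : Fin m → ℤ[X]) (hn : (∀ k, 2 * n k < n 0 + n 1 + n 2) ∨ Balanced a f c g)
    (h0 : 0 < n 0 + n 1 + n 2) : 0 < κ a f c g := by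
  classical
  have h2 : (univ.filter (fun i => SqMod (f 2 i) (D c g * u a f 0))).card ≤ n 2 := by
    refine (card_filter_le _ _).trans ?_
    rw [card_univ, Fintype.card_fin]
  have h3 : 2 * ((univ.filter (fun i => SqMod (f 2 i) (D c g * u a f 0))).card) + n 2 <
      2 * (n 0 + n 1) + (univ.filter (fun i => SqMod (f 2 i) (D c g * u a f 0))).card := by
    rcases hn with h | h
    · have := h 2
      have h4 : 0 < n 0 + n 1 := by omega
      omega
    · have h5 := h 2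
      have e : v a f c g 2 = D c g * u a f 0 := rfl
      rw [e] at h5
      have := h 0
      have := h 1
      omega
  unfold κ
  have h4 : ((n 2 : ℝ) + (univ.filter (fun i => SqMod (f 2 i) (D c g * u a f 0))).card) <
      2 * ((n 0 : ℝ) + n 1) := by
    have : n 2 + (univ.filter (fun i => SqMod (f 2 i) (D c g * u a f 0))).card <
      2 * (n 0 + n 1) := by omega
    exact_mod_cast this
  have h5 : (0 : ℝ) ≤ ((univ.filter (fun i => ¬ SqMod (g i) (u a f 0 * u a f 1))).card : ℝ) / 2 := by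
    positivity
  linarith

/-- `log log X` is eventually large -/
lemma big_ll (c : ℝ) : ∃ X1 : ℕ, ∀ X : ℕ, X1 ≤ X → c ≤ Real.log (Real.log X) := by
  have h : Filter.Tendsto (fun X : ℕ => Real.log (Real.log X)) Filter.atTop Filter.atTop :=
    Real.tendsto_log_atTop.comp (Real.tendsto_log_atTop.comp tendsto_natCast_atTop_atTop)
  obtain ⟨X1, h1⟩ := Filter.eventually_atTop.1 (h.eventually_ge_atTop c)
  exact ⟨X1, h1⟩

open Classical in
/-- **Theorem.** Let `u_k = a_k ∏_{i < n_k} f_{k,i}`, `k = 0, 1, 2`, with `u₀ - u₁ = u₂`, and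
`D = c ∏_{i < m} g_i`, where `a_k`, `c` are nonzero and the `n₀ + n₁ + n₂ + m` polynomials
`f_{k,i}`, `g_i` with integer coefficients are irreducible of positive degree and pairwise
non-associated; assume that `2 n_k < n₀ + n₁ + n₂` for all `k`, or the balance condition (and
`n₀ + n₁ + n₂ > 0`). Then `κ > 0`, and for all `δ, ε > 0` and `L`: (1) there are `R` and `M₀` such that
for `M ≥ M₀` and `|N| ≤ M ^ L` the number of the integers `N < t ≤ N + M` for which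
`((D u₀)(t), (D u₁)(t))` is not normal is at most `ε M`; (2) for every `K` there is `M₀` such that for
`M ≥ M₀` and `|N| ≤ M ^ L` the number of the integers `N < t ≤ N + M` for which `s ≤ r + K` is at
most `ε M`. -/
theorem result (n : Fin 3 → ℕ) (m : ℕ) (a : Fin 3 → ℤ) (f : ∀ k : Fin 3, Fin (n k) → ℤ[X])
    (c : ℤ) (g : Fin m → ℤ[X]) (ha : ∀ k, a k ≠ 0) (hc : c ≠ 0)
    (hf : ∀ k i, Irreducible (f k i) ∧ 0 < (f k i).natDegree)
    (hg : ∀ i, Irreducible (g i) ∧ 0 < (g i).natDegree)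
    (hff : ∀ k i l j, (⟨k, i⟩ : Σ k : Fin 3, Fin (n k)) ≠ ⟨l, j⟩ → ¬ Associated (f k i) (f l j))
    (hgg : ∀ i j, i ≠ j → ¬ Associated (g i) (g j)) (hfg : ∀ k i j, ¬ Associated (f k i) (g j))
    (hu : u a f 0 - u a f 1 = u a f 2) (h0 : 0 < n 0 + n 1 + n 2)
    (hn : (∀ k, 2 * n k < n 0 + n 1 + n 2) ∨ Balanced a f c g)
    (δ ε : ℝ) (L : ℕ) (hδ : 0 < δ) (hε : 0 < ε) :
    0 < κ a f c g ∧
    (∃ R M₀ : ℕ, ∀ (N : ℤ) (M : ℕ), M₀ ≤ M → |N| ≤ (M : ℤ) ^ L →
      (((Ioc N (N + (M : ℤ))).filter (fun t => ¬ Normal R (κ a f c g) δ M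
        ((D c g * u a f 0).eval t) ((D c g * u a f 1).eval t))).card : ℝ) ≤ ε * M) ∧
    ∀ K : ℕ, ∃ M₀ : ℕ, ∀ (N : ℤ) (M : ℕ), M₀ ≤ M → |N| ≤ (M : ℤ) ^ L →
      (((Ioc N (N + (M : ℤ))).filter (fun t => ¬ Gap K
        ((D c g * u a f 0).eval t) ((D c g * u a f 1).eval t))).card : ℝ) ≤ ε * M := by
  have hκ := κ_pos a f c g hn h0
  have key : ∀ δ : ℝ, 0 < δ → ∃ R M₀ : ℕ, ∀ (N : ℤ) (M : ℕ), M₀ ≤ M → |N| ≤ (M : ℤ) ^ L →
      (((Ioc N (N + (M : ℤ))).filter (fun t => ¬ Normal R (κ a f c g) δ M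
        ((D c g * u a f 0).eval t) ((D c g * u a f 1).eval t))).card : ℝ) ≤ ε * M := by
    intro δ hδ
    have hirr : Pool.Agent.TH841.PT.Irr (Pool.Agent.TH841.TR.allf g f) := by
      refine ⟨?_, ?_, ?_⟩
      · rintro (x | i)
        · exact (hf x.1 x.2).1
        · exact (hg i).1
      · rintro (x | i)
        · exact (hf x.1 x.2).2
        · exact (hg i).2
      · rintro (x | i) (y | j) hxy
        · exact hff x.1 x.2 y.1 y.2 (fun h => hxy (congrArg Sum.inl h))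
        · exact hfg x.1 x.2 j
        · exact fun h => hfg y.1 y.2 i h.symm
        · exact hgg i j (fun h => hxy (congrArg Sum.inr h))
    have hn' : (∀ k, 2 * n k < n 0 + n 1 + n 2) ∨
        Pool.Agent.TH841.TR.Bal (Pool.Agent.TH841.LS.DG c g) a f := by
      rcases hn with h | h
      · exact Or.inl h
      · exact Or.inr (Pool.Agent.TH841.TR.bal_of (v := v a f c g) rfl rfl rfl fun k => h k)
    obtain ⟨R, M₀, h⟩ := Pool.Agent.TH841.NO.final a f c g ha hc hirr hu hn' δ ε L hδ hε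
    refine ⟨R, M₀, fun N M hM hN => le_trans ?_ (h N M hM hN)⟩
    rw [Nat.cast_le]
    refine card_le_card fun t ht => ?_
    obtain ⟨ht1, ht2⟩ := mem_filter.1 ht
    refine mem_filter.2 ⟨ht1, fun hcon => ht2 ?_⟩
    rintro a' b' rfl rfl
    obtain ⟨g1, g2, g3, g4, g5, g6⟩ := hcon ((D c g * u a f 0).eval t) ((D c g * u a f 1).eval t)
      rfl rfl
    generalize (D c g * u a f 0).eval t = A at *
    generalize (D c g * u a f 1).eval t = B at *
    refine ⟨mul_ne_zero g1 g2, ?_, g4, g5, g6⟩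
    have e : (-(A + B)) ^ 2 - 4 * (A * B) = (A - B) ^ 2 := by ring
    rw [e]
    exact pow_ne_zero 2 (sub_ne_zero.2 g3)
  refine ⟨hκ, key δ hδ, fun K => ?_⟩
  obtain ⟨R, M₀, h⟩ := key (κ a f c g / 2) (by positivity)
  obtain ⟨X1, hX1⟩ := big_ll ((R + K + 1) / (κ a f c g / 2))
  refine ⟨M₀ + X1, fun N M hM hN => ?_⟩
  refine le_trans ?_ (h N M (by omega) hN)
  have hl := hX1 M (by omega)
  rw [div_le_iff₀ (by positivity)] at hl
  rw [Nat.cast_le]
  refine card_le_card fun t ht => ?_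
  obtain ⟨ht1, hi⟩ := mem_filter.1 ht
  refine mem_filter.2 ⟨ht1, fun hcon => hi ?_⟩
  intro a' b' ha' hb'
  obtain ⟨-, -, g3, -, g5⟩ := hcon a' b' ha' hb'
  have g6 := (abs_le.1 g5).1
  have g7 : (R : ℝ) + K + 1 ≤ (s a' b' : ℝ) := by linarith
  have g8 : ((R + K + 1 : ℕ) : ℤ) ≤ s a' b' := by exact_mod_cast g7
  push_cast at g8
  have g9 : (r a' b' : ℤ) ≤ R := by exact_mod_cast g3
  linarith

end Pool.Agent.Results.MP_e2b281_nt.Pencils
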